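import Mathlib

set_option autoImplicit false

/-!
# Repeated averaging of trigonometric polynomials and Bessel's inequality on a short interval
-/

open Finset MeasureTheory intervalIntegral

namespace Pool.Agent.T2H67.SAr

/-- `e(t) = exp(2 π i t)` -/
noncomputable def E (t : ℝ) : ℂ := Complex.exp (2 * Real.pi * Complex.I * t)

lemma E_add (s t : ℝ) : E (s + t) = E s * E t := by
  unfold E
  rw [← Complex.exp_add]
  congr 1
  push_cast
  ring

lemma E_zero : E 0 = 1 := by simp [E]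

lemma norm_E (t : ℝ) : ‖E t‖ = 1 := by
  unfold E
  rw [show (2 * Real.pi * Complex.I * t : ℂ) = ((2 * Real.pi * t : ℝ) : ℂ) * Complex.I by push_cast; ring]
  exact Complex.norm_exp_ofReal_mul_I _

lemma E_neg (t : ℝ) : E (-t) = (starRingEnd ℂ) (E t) := by
  unfold E
  rw [← Complex.exp_conj]
  congr 1
  simp only [map_mul, Complex.conj_I, Complex.conj_ofReal, Complex.ofReal_neg]
  rw [show (starRingEnd ℂ) 2 = 2 from Complex.conj_ofNat 2]
  ring

lemma E_int (k : ℤ) : E k = 1 := by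
  unfold E
  rw [Complex.exp_eq_one_iff]
  exact ⟨k, by push_cast; ring⟩

@[fun_prop]
lemma cont_E : Continuous E := by unfold E; fun_prop

/-- `∫_0^h e(c u) du` -/
lemma integral_E {c h : ℝ} (hc : c ≠ 0) :
    ∫ u in (0 : ℝ)..h, E (c * u) = (E (c * h) - 1) / (2 * Real.pi * Complex.I * c) := by
  have h1 : (2 * Real.pi * Complex.I * c : ℂ) ≠ 0 := by
    have := Real.pi_ne_zero
    simp [hc, this]
  have h2 := integral_exp_mul_complex (a := 0) (b := h) h1
  unfold E
  rw [show (fun u : ℝ => Complex.exp (2 * Real.pi * Complex.I * ((c * u : ℝ) : ℂ)))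
    = fun u : ℝ => Complex.exp (2 * Real.pi * Complex.I * c * u) by
      funext u; congr 1; push_cast; ring]
  rw [h2]
  congr 1
  congr 1
  · congr 1
    push_cast
    ring
  · simp

/-- the averaging kernel -/
noncomputable def kap (h : ℝ) (j : ℤ) : ℂ := (h : ℂ)⁻¹ * ∫ u in (0 : ℝ)..h, E (j * u)

lemma kap_zero {h : ℝ} (hh : 0 < h) : kap h 0 = 1 := by
  unfold kap
  simp only [Int.cast_zero, zero_mul, E_zero, intervalIntegral.integral_const, sub_zero]
  rw [Complex.real_smul, mul_one, inv_mul_cancel₀]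
  exact_mod_cast hh.ne'

lemma norm_kap_le {h : ℝ} (hh : 0 < h) {j : ℤ} (hj : j ≠ 0) :
    ‖kap h j‖ ≤ 1 / (Real.pi * h * |(j : ℝ)|) := by
  have hj' : (j : ℝ) ≠ 0 := by exact_mod_cast hj
  have hp := Real.pi_pos
  unfold kap
  rw [integral_E hj', norm_mul, norm_div, norm_inv, Complex.norm_real, Real.norm_of_nonneg hh.le]
  have h1 : ‖E (j * h) - 1‖ ≤ 2 := by
    refine (norm_sub_le _ _).trans ?_
    rw [norm_E, norm_one]
    norm_num
  have h2 : ‖(2 * Real.pi * Complex.I * (j : ℝ) : ℂ)‖ = 2 * Real.pi * |(j : ℝ)| := by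
    rw [norm_mul, norm_mul, norm_mul, Complex.norm_I, Complex.norm_real, Complex.norm_real,
      Real.norm_of_nonneg hp.le, Real.norm_eq_abs]
    simp
  rw [h2]
  have h3 : 0 < |(j : ℝ)| := abs_pos.2 hj'
  calc h⁻¹ * (‖E (j * h) - 1‖ / (2 * Real.pi * |(j : ℝ)|))
      ≤ h⁻¹ * (2 / (2 * Real.pi * |(j : ℝ)|)) := by gcongr
    _ = 1 / (Real.pi * h * |(j : ℝ)|) := by
        field_simp

lemma norm_kap_le_one {h : ℝ} (hh : 0 < h) (j : ℤ) : ‖kap h j‖ ≤ 1 := by
  unfold kap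
  rw [norm_mul, norm_inv, Complex.norm_real, Real.norm_of_nonneg hh.le]
  have : ‖∫ u in (0 : ℝ)..h, E (j * u)‖ ≤ 1 * |h - 0| :=
    intervalIntegral.norm_integral_le_of_norm_le_const fun u _ => (norm_E _).le
  rw [sub_zero, one_mul, abs_of_pos hh] at this
  calc h⁻¹ * ‖∫ u in (0 : ℝ)..h, E (j * u)‖ ≤ h⁻¹ * h := by gcongr
    _ = 1 := inv_mul_cancel₀ hh.ne'

/-- the repeated averages, with demodulation at the frequency `m` -/
noncomputable def G (S : ℝ → ℂ) (h : ℝ) (m : ℤ) : ℕ → ℝ → ℂ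
  | 0 => S
  | r + 1 => fun x => (h : ℂ)⁻¹ * ∫ u in (0 : ℝ)..h, G S h m r (x + u) * E (-(m * u))

/-- the repeated averages of a trigonometric polynomial -/
lemma G_trig (F : Finset ℤ) (c : ℤ → ℂ) (h : ℝ) (m : ℤ) (r : ℕ) (x : ℝ) :
    G (fun x => ∑ n ∈ F, c n * E (n * x)) h m r x = ∑ n ∈ F, c n * kap h (n - m) ^ r * E (n * x) := by
  induction r generalizing x with
  | zero => simp [G]
  | succ r ih =>
    simp only [G]
    simp_rw [ih, Finset.sum_mul]
    rw [intervalIntegral.integral_finsetSum]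
    · rw [Finset.mul_sum]
      refine Finset.sum_congr rfl fun n _ => ?_
      have h1 : ∀ u : ℝ, c n * kap h (n - m) ^ r * E (n * (x + u)) * E (-(m * u))
          = c n * kap h (n - m) ^ r * E (n * x) * E (((n - m : ℤ) : ℝ) * u) := by
        intro u
        have : E (n * (x + u)) * E (-(m * u)) = E (n * x) * E (((n - m : ℤ) : ℝ) * u) := by
          rw [← E_add, ← E_add]
          congr 1
          push_cast
          ring
        rw [mul_assoc, this]
        ring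
      simp_rw [h1]
      rw [intervalIntegral.integral_const_mul, pow_succ]
      unfold kap
      ring
    · intro n _
      apply Continuous.intervalIntegrable
      fun_prop

lemma G_cont {S : ℝ → ℂ} (hS : Continuous S) (h : ℝ) (m : ℤ) (r : ℕ) : Continuous (G S h m r) := by
  induction r with
  | zero => exact hS
  | succ r ih =>
    simp only [G]
    refine continuous_const.mul ?_
    exact intervalIntegral.continuous_parametric_intervalIntegral_of_continuous'
      (f := fun x u => G S h m r (x + u) * E (-(m * u))) (by fun_prop) 0 h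

/-- Jensen's inequality for an average -/
lemma jensen {f : ℝ → ℂ} (hf : Continuous f) {h : ℝ} (hh : 0 < h) :
    ‖(h : ℂ)⁻¹ * ∫ u in (0 : ℝ)..h, f u‖ ^ 2 ≤ h⁻¹ * ∫ u in (0 : ℝ)..h, ‖f u‖ ^ 2 := by
  have h1 : ‖∫ u in (0 : ℝ)..h, f u‖ ≤ ∫ u in (0 : ℝ)..h, ‖f u‖ :=
    intervalIntegral.norm_integral_le_integral_norm hh.le
  set A := ∫ u in (0 : ℝ)..h, ‖f u‖ with hA
  have h2 : 0 ≤ ∫ u in (0 : ℝ)..h, (‖f u‖ - h⁻¹ * A) ^ 2 :=
    intervalIntegral.integral_nonneg hh.le fun u _ => sq_nonneg _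
  have h3 : ∫ u in (0 : ℝ)..h, (‖f u‖ - h⁻¹ * A) ^ 2
      = (∫ u in (0 : ℝ)..h, ‖f u‖ ^ 2) - h⁻¹ * A ^ 2 := by
    have : ∀ u, (‖f u‖ - h⁻¹ * A) ^ 2 = ‖f u‖ ^ 2 - (2 * (h⁻¹ * A)) * ‖f u‖ + (h⁻¹ * A) ^ 2 := fun u => by ring
    simp_rw [this]
    rw [intervalIntegral.integral_add, intervalIntegral.integral_sub, intervalIntegral.integral_const_mul,
      intervalIntegral.integral_const, ← hA]
    · simp only [sub_zero, smul_eq_mul]
      field_simp
      ring
    all_goals apply Continuous.intervalIntegrable; fun_prop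
  rw [h3] at h2
  rw [norm_mul, mul_pow, norm_inv, Complex.norm_real, Real.norm_of_nonneg hh.le]
  have h4 : ‖∫ u in (0 : ℝ)..h, f u‖ ^ 2 ≤ A ^ 2 := by gcongr
  calc h⁻¹ ^ 2 * ‖∫ u in (0 : ℝ)..h, f u‖ ^ 2 ≤ h⁻¹ ^ 2 * A ^ 2 := by gcongr
    _ = h⁻¹ * (h⁻¹ * A ^ 2) := by ring
    _ ≤ h⁻¹ * ∫ u in (0 : ℝ)..h, ‖f u‖ ^ 2 := by
        gcongr
        linarith

/-- orthogonality on `[0,1]` -/
lemma integral_E_int (k : ℤ) : ∫ u in (0 : ℝ)..1, E (k * u) = if k = 0 then 1 else 0 := by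
  split_ifs with h
  · subst h
    simp [E_zero]
  · have h' : (k : ℝ) ≠ 0 := by exact_mod_cast h
    rw [integral_E h', mul_one, E_int, sub_self, zero_div]

/-- Parseval for finite trigonometric polynomials -/
lemma parseval (M : Finset ℤ) (lam : ℤ → ℂ) :
    ∫ u in (0 : ℝ)..1, ‖∑ m ∈ M, lam m * E (m * u)‖ ^ 2 = ∑ m ∈ M, ‖lam m‖ ^ 2 := by
  have h1 : ∀ u : ℝ, ((‖∑ m ∈ M, lam m * E (m * u)‖ ^ 2 : ℝ) : ℂ)
      = ∑ m ∈ M, ∑ m' ∈ M, lam m * (starRingEnd ℂ) (lam m') * E (((m - m' : ℤ) : ℝ) * u) := by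
    intro u
    rw [Complex.ofReal_pow, ← Complex.mul_conj', map_sum, Finset.sum_mul_sum]
    refine Finset.sum_congr rfl fun m _ => Finset.sum_congr rfl fun m' _ => ?_
    rw [map_mul, ← E_neg]
    have : E (((m - m' : ℤ) : ℝ) * u) = E (m * u) * E (-(m' * u)) := by
      rw [← E_add]
      congr 1
      push_cast
      ring
    rw [this]
    ring
  have h2 : ((∫ u in (0 : ℝ)..1, ‖∑ m ∈ M, lam m * E (m * u)‖ ^ 2 : ℝ) : ℂ)
      = ((∑ m ∈ M, ‖lam m‖ ^ 2 : ℝ) : ℂ) := by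
    rw [← intervalIntegral.integral_ofReal]
    simp_rw [h1]
    rw [intervalIntegral.integral_finsetSum]
    · rw [Complex.ofReal_sum]
      refine Finset.sum_congr rfl fun m hm => ?_
      rw [intervalIntegral.integral_finsetSum]
      · simp_rw [intervalIntegral.integral_const_mul, integral_E_int, sub_eq_zero]
        rw [Finset.sum_eq_single m]
        · rw [if_pos rfl, mul_one, Complex.mul_conj', Complex.ofReal_pow]
        · intro m' _ hne
          rw [if_neg (Ne.symm hne), mul_zero]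
        · intro h
          exact absurd hm h
      · intro m' _
        apply Continuous.intervalIntegrable
        fun_prop
    · intro m _
      apply Continuous.intervalIntegrable
      fun_prop
  exact_mod_cast h2

/-- Bessel's inequality on `[0,h]` -/
lemma bessel {S : ℝ → ℂ} (hS : Continuous S) {h : ℝ} (h0 : 0 ≤ h) (h1 : h ≤ 1) (M : Finset ℤ) :
    ∑ m ∈ M, ‖∫ u in (0 : ℝ)..h, S u * E (-(m * u))‖ ^ 2 ≤ ∫ u in (0 : ℝ)..h, ‖S u‖ ^ 2 := by
  set lam : ℤ → ℂ := fun m => ∫ u in (0 : ℝ)..h, S u * E (-(m * u)) with hlam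
  set T : ℝ → ℂ := fun u => ∑ m ∈ M, lam m * E (m * u) with hT
  have hTc : Continuous T := by rw [hT]; fun_prop
  have hpars : (∫ u in (0 : ℝ)..h, ‖T u‖ ^ 2) + ∫ u in h..1, ‖T u‖ ^ 2 = ∑ m ∈ M, ‖lam m‖ ^ 2 := by
    rw [intervalIntegral.integral_add_adjacent_intervals]
    · exact parseval M lam
    all_goals apply Continuous.intervalIntegrable; fun_prop
  have hcross : ∫ u in (0 : ℝ)..h, (S u * (starRingEnd ℂ) (T u)).re = ∑ m ∈ M, ‖lam m‖ ^ 2 := by
    have e1 : ∫ u in (0 : ℝ)..h, S u * (starRingEnd ℂ) (T u) = ((∑ m ∈ M, ‖lam m‖ ^ 2 : ℝ) : ℂ) := by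
      have : ∀ u, S u * (starRingEnd ℂ) (T u)
          = ∑ m ∈ M, (starRingEnd ℂ) (lam m) * (S u * E (-(m * u))) := by
        intro u
        rw [hT]
        simp only [map_sum, map_mul, ← E_neg]
        rw [Finset.mul_sum]
        refine Finset.sum_congr rfl fun m _ => by ring
      simp_rw [this]
      rw [intervalIntegral.integral_finsetSum]
      · rw [Complex.ofReal_sum]
        refine Finset.sum_congr rfl fun m _ => ?_
        rw [intervalIntegral.integral_const_mul, mul_comm, Complex.mul_conj', Complex.ofReal_pow]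
      · intro m _
        apply Continuous.intervalIntegrable
        fun_prop
    have e2 : ∫ u in (0 : ℝ)..h, (S u * (starRingEnd ℂ) (T u)).re
        = (∫ u in (0 : ℝ)..h, S u * (starRingEnd ℂ) (T u)).re := by
      have := intervalIntegral.intervalIntegral_re (𝕜 := ℂ) (μ := MeasureTheory.volume) (a := 0) (b := h)
        (f := fun u => S u * (starRingEnd ℂ) (T u))
        (by apply Continuous.intervalIntegrable; fun_prop)
      simpa using this
    rw [e2, e1, Complex.ofReal_re]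
  have hsum : ∫ u in (0 : ℝ)..h, ‖S u - T u‖ ^ 2
      = (∫ u in (0 : ℝ)..h, ‖S u‖ ^ 2) - 2 * (∑ m ∈ M, ‖lam m‖ ^ 2) + ∫ u in (0 : ℝ)..h, ‖T u‖ ^ 2 := by
    have : ∀ u, ‖S u - T u‖ ^ 2 = ‖S u‖ ^ 2 - 2 * (S u * (starRingEnd ℂ) (T u)).re + ‖T u‖ ^ 2 := by
      intro u
      rw [← Complex.normSq_eq_norm_sq, ← Complex.normSq_eq_norm_sq, ← Complex.normSq_eq_norm_sq,
        Complex.normSq_sub]
      ring
    simp_rw [this]
    rw [intervalIntegral.integral_add, intervalIntegral.integral_sub, intervalIntegral.integral_const_mul,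
      hcross]
    all_goals apply Continuous.intervalIntegrable; fun_prop
  have h2 : 0 ≤ ∫ u in (0 : ℝ)..h, ‖S u - T u‖ ^ 2 :=
    intervalIntegral.integral_nonneg h0 fun u _ => by positivity
  have h3 : 0 ≤ ∫ u in h..1, ‖T u‖ ^ 2 :=
    intervalIntegral.integral_nonneg h1 fun u _ => by positivity
  linarith

/-- the main inequality: the repeated averages are controlled by the mean square on an interval -/
lemma main_ineq {S : ℝ → ℂ} (hS : Continuous S) {h : ℝ} (h0 : 0 < h) (h1 : h ≤ 1) (M : Finset ℤ) (r : ℕ)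
    (x : ℝ) :
    ∑ m ∈ M, ‖G S h m (r + 1) x‖ ^ 2 ≤ (h⁻¹) ^ 2 * ∫ t in x..(x + (r + 1) * h), ‖S t‖ ^ 2 := by
  induction r generalizing x with
  | zero =>
    have hb := bessel (S := fun u => S (x + u)) (by fun_prop) h0.le h1 M
    have h2 : ∀ m ∈ M, ‖G S h m (0 + 1) x‖ ^ 2
        = (h⁻¹) ^ 2 * ‖∫ u in (0 : ℝ)..h, S (x + u) * E (-(m * u))‖ ^ 2 := by
      intro m _
      simp only [G]
      rw [norm_mul, mul_pow, norm_inv, Complex.norm_real, Real.norm_of_nonneg h0.le]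
    rw [Finset.sum_congr rfl h2, ← Finset.mul_sum]
    have h3 : ∫ t in x..(x + ((0 : ℕ) + 1) * h), ‖S t‖ ^ 2 = ∫ u in (0 : ℝ)..h, ‖S (x + u)‖ ^ 2 := by
      rw [intervalIntegral.integral_comp_add_left (fun t => ‖S t‖ ^ 2) x]
      simp
    rw [h3]
    gcongr
  | succ r ih =>
    have hGc : ∀ m, Continuous (G S h m (r + 1)) := fun m => G_cont hS h m (r + 1)
    have h2 : ∀ m ∈ M, ‖G S h m (r + 1 + 1) x‖ ^ 2
        ≤ h⁻¹ * ∫ u in (0 : ℝ)..h, ‖G S h m (r + 1) (x + u)‖ ^ 2 := by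
      intro m _
      have hj := jensen (f := fun u => G S h m (r + 1) (x + u) * E (-(m * u)))
        (by have := hGc m; fun_prop) h0
      simp only [norm_mul, norm_E, mul_one] at hj
      rw [G]
      rw [norm_mul]
      exact hj
    refine (Finset.sum_le_sum h2).trans ?_
    rw [← Finset.mul_sum, ← intervalIntegral.integral_finsetSum]
    · have h3 : ∫ u in (0 : ℝ)..h, ∑ m ∈ M, ‖G S h m (r + 1) (x + u)‖ ^ 2
          ≤ ∫ u in (0 : ℝ)..h, (h⁻¹) ^ 2 * ∫ t in x..(x + ((r + 1 : ℕ) + 1) * h), ‖S t‖ ^ 2 := by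
        apply intervalIntegral.integral_mono_on h0.le
        · apply Continuous.intervalIntegrable
          have := hGc
          fun_prop
        · apply Continuous.intervalIntegrable
          fun_prop
        · intro u hu
          refine (ih (x + u)).trans ?_
          gcongr
          apply intervalIntegral.integral_mono_interval
          · linarith [hu.1]
          · have : 0 ≤ ((r : ℝ) + 1) * h := by positivity
            linarith
          · push_cast
            nlinarith [hu.2]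
          · filter_upwards with t
            positivity
          · apply Continuous.intervalIntegrable
            fun_prop
      rw [intervalIntegral.integral_const, sub_zero, smul_eq_mul] at h3
      calc h⁻¹ * ∫ u in (0 : ℝ)..h, ∑ m ∈ M, ‖G S h m (r + 1) (x + u)‖ ^ 2
          ≤ h⁻¹ * (h * ((h⁻¹) ^ 2 * ∫ t in x..(x + ((r + 1 : ℕ) + 1) * h), ‖S t‖ ^ 2)) := by gcongr
        _ = (h⁻¹) ^ 2 * ∫ t in x..(x + ((r + 1 : ℕ) + 1) * h), ‖S t‖ ^ 2 := by
            rw [← mul_assoc, inv_mul_cancel₀ h0.ne', one_mul]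
    · intro m _
      apply Continuous.intervalIntegrable
      have := hGc m
      fun_prop

/-- a sum over integers at distance more than `N` from `m` -/
lemma sum_inv_sq_far (F : Finset ℤ) (m : ℤ) {N : ℕ} (hN : N ≠ 0) :
    (∑ n ∈ F.filter (fun n => (N : ℤ) < |n - m|), 1 / ((n - m : ℤ) : ℝ) ^ 2 : ℝ) ≤ 2 / (N : ℝ) := by
  classical
  set F₁ := F.filter (fun n => (N : ℤ) < |n - m|) with hF₁
  set K : ℕ := (F₁.sup fun n => (n - m).natAbs) + N with hK
  have hmap : ∀ n ∈ F₁, (n - m).natAbs ∈ Finset.Ioc N K := by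
    intro n hn
    rw [Finset.mem_Ioc]
    have h1 := (Finset.mem_filter.1 hn).2
    have h2 : (n - m).natAbs ≤ F₁.sup fun n => (n - m).natAbs := Finset.le_sup (f := fun n => (n - m).natAbs) hn
    constructor
    · have : (N : ℤ) < ((n - m).natAbs : ℤ) := by rw [Int.natCast_natAbs]; exact h1
      exact_mod_cast this
    · omega
  rw [← Finset.sum_fiberwise_of_maps_to hmap]
  have h2 : ∀ j ∈ Finset.Ioc N K,
      ∑ n ∈ F₁.filter (fun n => (n - m).natAbs = j), 1 / ((n - m : ℤ) : ℝ) ^ 2 ≤ 2 * (((j : ℝ) ^ 2)⁻¹) := by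
    intro j _
    have h3 : ∀ n ∈ F₁.filter (fun n => (n - m).natAbs = j), 1 / ((n - m : ℤ) : ℝ) ^ 2 = ((j : ℝ) ^ 2)⁻¹ := by
      intro n hn
      have h4 := (Finset.mem_filter.1 hn).2
      have h5 : ((n - m : ℤ) : ℝ) ^ 2 = (j : ℝ) ^ 2 := by
        rw [← h4, Nat.cast_natAbs, Int.cast_abs, sq_abs]
      rw [h5, one_div]
    rw [Finset.sum_congr rfl h3, Finset.sum_const, nsmul_eq_mul]
    have h6 : (F₁.filter (fun n => (n - m).natAbs = j)).card ≤ 2 := by
      have : F₁.filter (fun n => (n - m).natAbs = j) ⊆ {m + j, m - j} := by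
        intro n hn
        have h4 := (Finset.mem_filter.1 hn).2
        simp only [Finset.mem_insert, Finset.mem_singleton]
        omega
      exact (Finset.card_le_card this).trans Finset.card_le_two
    gcongr
    exact_mod_cast h6
  refine (Finset.sum_le_sum h2).trans ?_
  rw [← Finset.mul_sum]
  have h7 := sum_Ioc_inv_sq_le_sub (α := ℝ) hN (show N ≤ K by omega)
  have h8 : (0 : ℝ) ≤ (K : ℝ)⁻¹ := by positivity
  calc 2 * ∑ j ∈ Finset.Ioc N K, ((j : ℝ) ^ 2)⁻¹ ≤ 2 * ((N : ℝ)⁻¹) := by gcongr; linarith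
    _ = 2 / N := by rw [div_eq_mul_inv]

/-- the average at an isolated frequency is large -/
lemma iso_ge (F : Finset ℤ) (c : ℤ → ℂ) {h B : ℝ} (hh : 0 < h) (hB : 0 ≤ B) {N r : ℕ} (hN : 1 ≤ N * h) (m : ℤ)
    (hm : m ∈ F) (hcB : ∀ n ∈ F, ‖c n‖ ≤ B) (hiso : ∀ n ∈ F, n ≠ m → |n - m| ≤ N → c n = 0) (x : ℝ) :
    ‖c m‖ - B * (Real.pi⁻¹ ^ (r + 2) * (2 / h))
      ≤ ‖G (fun x => ∑ n ∈ F, c n * E (n * x)) h m (r + 2) x‖ := by
  classical
  have hp := Real.pi_pos
  have hN0 : N ≠ 0 := by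
    rintro rfl
    norm_num at hN
  have hNpos : (0 : ℝ) < N := by exact_mod_cast Nat.pos_of_ne_zero hN0
  rw [G_trig]
  rw [← Finset.add_sum_erase F _ hm]
  have h1 : ‖c m * kap h (m - m) ^ (r + 2) * E (m * x)‖ = ‖c m‖ := by
    rw [sub_self, kap_zero hh, one_pow, mul_one, norm_mul, norm_E, mul_one]
  have h2 : ‖∑ n ∈ F.erase m, c n * kap h (n - m) ^ (r + 2) * E (n * x)‖
      ≤ B * (Real.pi⁻¹ ^ (r + 2) * (2 / h)) := by
    refine (norm_sum_le _ _).trans ?_
    have h3 : ∀ n ∈ F.erase m, ‖c n * kap h (n - m) ^ (r + 2) * E (n * x)‖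
        ≤ if (N : ℤ) < |n - m| then B * (Real.pi⁻¹ ^ (r + 2) * (h⁻¹ ^ 2 * (1 / ((n - m : ℤ) : ℝ) ^ 2))) else 0 := by
      intro n hn
      obtain ⟨hne, hnF⟩ := Finset.mem_erase.1 hn
      split_ifs with hlt
      · have hd : (n - m : ℤ) ≠ 0 := sub_ne_zero.2 hne
        have hd' : ((n - m : ℤ) : ℝ) ≠ 0 := by exact_mod_cast hd
        have hab : 0 < |((n - m : ℤ) : ℝ)| := abs_pos.2 hd'
        rw [norm_mul, norm_mul, norm_E, mul_one, norm_pow]
        have hk := norm_kap_le hh hd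
        have h4 : ‖kap h (n - m)‖ ^ (r + 2)
            ≤ Real.pi⁻¹ ^ (r + 2) * (h⁻¹ ^ 2 * (1 / ((n - m : ℤ) : ℝ) ^ 2)) := by
          have h5 : 1 / (Real.pi * h * |((n - m : ℤ) : ℝ)|)
              = Real.pi⁻¹ * (h⁻¹ * (1 / |((n - m : ℤ) : ℝ)|)) := by
            field_simp
          have h6 : h⁻¹ * (1 / |((n - m : ℤ) : ℝ)|) ≤ 1 := by
            have h7 : (N : ℝ) ≤ |((n - m : ℤ) : ℝ)| := by
              have : (N : ℤ) ≤ |n - m| := hlt.le
              exact_mod_cast this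
            rw [one_div, ← mul_inv]
            apply inv_le_one_of_one_le₀
            calc (1 : ℝ) ≤ N * h := hN
              _ ≤ |((n - m : ℤ) : ℝ)| * h := by gcongr
              _ = h * |((n - m : ℤ) : ℝ)| := mul_comm _ _
          have h8 : 0 ≤ h⁻¹ * (1 / |((n - m : ℤ) : ℝ)|) := by positivity
          calc ‖kap h (n - m)‖ ^ (r + 2) ≤ (1 / (Real.pi * h * |((n - m : ℤ) : ℝ)|)) ^ (r + 2) := by gcongr
            _ = Real.pi⁻¹ ^ (r + 2) * (h⁻¹ * (1 / |((n - m : ℤ) : ℝ)|)) ^ (r + 2) := by rw [h5, mul_pow]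
            _ ≤ Real.pi⁻¹ ^ (r + 2) * (h⁻¹ * (1 / |((n - m : ℤ) : ℝ)|)) ^ 2 := by
                gcongr ?_ * ?_
                exact pow_le_pow_of_le_one h8 h6 (by omega)
            _ = Real.pi⁻¹ ^ (r + 2) * (h⁻¹ ^ 2 * (1 / ((n - m : ℤ) : ℝ) ^ 2)) := by
                rw [mul_pow, div_pow, one_pow, sq_abs]
        exact mul_le_mul (hcB n hnF) h4 (by positivity) hB
      · rw [hiso n hnF hne (not_lt.1 hlt)]
        simp
    refine (Finset.sum_le_sum h3).trans ?_
    rw [← Finset.sum_filter]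
    have h9 := sum_inv_sq_far (F.erase m) m hN0
    rw [← Finset.mul_sum, ← Finset.mul_sum, ← Finset.mul_sum]
    have h10 : h⁻¹ ^ 2 * (2 / (N : ℝ)) ≤ 2 / h := by
      rw [div_eq_mul_inv 2 h, div_eq_mul_inv]
      have : (N : ℝ)⁻¹ ≤ h := by
        rw [inv_le_comm₀ hNpos hh, ← one_div, div_le_iff₀ hh]
        exact hN
      calc h⁻¹ ^ 2 * (2 * (N : ℝ)⁻¹) ≤ h⁻¹ ^ 2 * (2 * h) := by gcongr
        _ = 2 * h⁻¹ := by field_simp
    calc B * (Real.pi⁻¹ ^ (r + 2) * (h⁻¹ ^ 2 *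
          ∑ n ∈ (F.erase m).filter (fun n => (N : ℤ) < |n - m|), 1 / ((n - m : ℤ) : ℝ) ^ 2))
        ≤ B * (Real.pi⁻¹ ^ (r + 2) * (h⁻¹ ^ 2 * (2 / (N : ℝ)))) := by gcongr
      _ ≤ B * (Real.pi⁻¹ ^ (r + 2) * (2 / h)) := by gcongr
  have h11 := norm_sub_norm_le (c m * kap h (m - m) ^ (r + 2) * E (m * x))
    (-∑ n ∈ F.erase m, c n * kap h (n - m) ^ (r + 2) * E (n * x))
  rw [sub_neg_eq_add, norm_neg, h1] at h11
  linarith

end Pool.Agent.T2H67.SAr
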