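import Mathlib

set_option autoImplicit false

/-!
# Isolated squarefree numbers
-/

open Finset

namespace Pool.Agent.T2H67.SAr

lemma log_two_bounds : 0.69 < Real.log 2 ∧ Real.log 2 < 0.7 :=
  ⟨by linarith [Real.log_two_gt_d9], by linarith [Real.log_two_lt_d9]⟩

lemma primes_many (N : ℕ) (hN : 1 ≤ N) : 4 * N ≤ Nat.primeCounting (64 * N ^ 2) := by
  have h := Chebyshev.pi_ge (64 * N ^ 2)
  have hN' : (1 : ℝ) ≤ N := by exact_mod_cast hN
  obtain ⟨l1, l2⟩ := log_two_bounds
  have e1 : Real.log ((64 * N ^ 2 : ℕ) : ℝ) = 10 * Real.log 2 + 2 * Real.log (N / 4) := by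
    push_cast
    rw [show (64 * (N : ℝ) ^ 2) = 2 ^ 10 * (N / 4) ^ 2 by ring, Real.log_mul (by positivity) (by positivity),
      Real.log_pow, Real.log_pow]
    push_cast
    ring
  have e2 : Real.log ((N : ℝ) / 4) ≤ N / 4 - 1 := Real.log_le_sub_one_of_pos (by positivity)
  have e3 : Real.log ((64 * N ^ 2 : ℕ) : ℝ) ≤ 5 + N / 2 := by rw [e1]; linarith
  have e4 : 0 < Real.log ((64 * N ^ 2 : ℕ) : ℝ) := by
    apply Real.log_pos
    push_cast
    nlinarith
  have e5 : Real.log (((64 * N ^ 2 : ℕ) : ℝ) + 1) ≤ 6 + N / 2 := by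
    have : ((64 * N ^ 2 : ℕ) : ℝ) + 1 ≤ 2 * ((64 * N ^ 2 : ℕ) : ℝ) := by
      push_cast
      nlinarith
    have h6 := Real.log_le_log (by positivity) this
    rw [Real.log_mul (by norm_num) (by positivity)] at h6
    linarith
  rw [div_le_iff₀ e4] at h
  by_contra hcon
  rw [not_le] at hcon
  have h7 : ((Nat.primeCounting (64 * N ^ 2) : ℕ) : ℝ) ≤ 4 * N := by exact_mod_cast hcon.le
  have h8 : ((Nat.primeCounting (64 * N ^ 2) : ℕ) : ℝ) * Real.log ((64 * N ^ 2 : ℕ) : ℝ)
      ≤ (4 * N) * (5 + N / 2) := mul_le_mul h7 e3 e4.le (by positivity)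
  have h9 : ((64 * N ^ 2 : ℕ) : ℝ) * Real.log 2 ≥ 44 * (N : ℝ) ^ 2 := by
    push_cast
    nlinarith [sq_nonneg (N : ℝ)]
  nlinarith

lemma primes_card (N : ℕ) (hN : 1 ≤ N) : 2 * N + 1 ≤ #((Ioc N (64 * N ^ 2)).filter Nat.Prime) := by
  have h1 := primes_many N hN
  have h2 : Nat.primeCounting (64 * N ^ 2) ≤ #((Ioc N (64 * N ^ 2)).filter Nat.Prime) + N := by
    rw [Nat.primeCounting, Nat.primeCounting', Nat.count_eq_card_filter_range]
    have : (range (64 * N ^ 2 + 1)).filter Nat.Prime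
        ⊆ (Ioc N (64 * N ^ 2)).filter Nat.Prime ∪ Icc 1 N := by
      intro p hp
      rw [mem_filter, mem_range] at hp
      have := hp.2.pos
      simp only [mem_union, mem_filter, mem_Ioc, mem_Icc]
      by_cases h : p ≤ N
      · right; omega
      · left; exact ⟨by omega, hp.2⟩
    refine (card_le_card this).trans ((card_union_le _ _).trans ?_)
    simp
  omega

/-- the primes -/
lemma exists_primes (N : ℕ) (hN : 1 ≤ N) : ∃ p : Fin (2 * N + 1) → ℕ, Function.Injective p ∧
    ∀ i, (p i).Prime ∧ N < p i ∧ p i ≤ 64 * N ^ 2 := by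
  refine ⟨Finset.orderEmbOfCardLe _ (primes_card N hN), (Finset.orderEmbOfCardLe _ (primes_card N hN)).injective,
    fun i => ?_⟩
  have := Finset.orderEmbOfCardLe_mem _ (primes_card N hN) i
  rw [mem_filter, mem_Ioc] at this
  exact ⟨this.2, this.1⟩

/-- number of terms of a progression divisible by `q` -/
lemma card_dvd_le (S a Q q : ℕ) (hq : 0 < q) (hc : Nat.Coprime q Q) :
    #((range S).filter fun s => q ∣ a + Q * s) ≤ S / q + 1 := by
  rcases ((range S).filter fun s => q ∣ a + Q * s).eq_empty_or_nonempty with h | ⟨v, hv⟩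
  · rw [h]; simp
  · have hsub : ((range S).filter fun s => q ∣ a + Q * s) ⊆ (range S).filter fun s => s ≡ v [MOD q] := by
      intro s hs
      rw [mem_filter] at hs hv ⊢
      refine ⟨hs.1, ?_⟩
      have h1 : a + Q * s ≡ a + Q * v [MOD q] :=
        ((Nat.modEq_zero_iff_dvd).2 hs.2).trans ((Nat.modEq_zero_iff_dvd).2 hv.2).symm
      have h2 : Q * s ≡ Q * v [MOD q] := Nat.ModEq.add_left_cancel' a h1
      exact Nat.ModEq.cancel_left_of_coprime hc h2
    refine (card_le_card hsub).trans ?_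
    rw [← Nat.count_eq_card_filter_range, Nat.count_modEq_card S hq v]
    split_ifs <;> omega

/-- a number coprime to `Q` in a progression is often squarefree -/
lemma card_sqfree_ge (S a Q D : ℕ) (hD : a + Q * S ≤ D ^ 2) (ha : 0 < a) (hc : Nat.Coprime a Q) :
    (S : ℝ) / 4 - D ≤ #((range S).filter fun s => Squarefree (a + Q * s)) := by
  classical
  have hbad : ((range S).filter fun s => ¬ Squarefree (a + Q * s))
      ⊆ ((Icc 2 D).filter fun l => Nat.Coprime l Q).biUnion
        fun l => (range S).filter fun s => l ^ 2 ∣ a + Q * s := by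
    intro s hs
    rw [mem_filter, mem_range] at hs
    obtain ⟨hs1, hs2⟩ := hs
    rw [Nat.squarefree_iff_prime_squarefree] at hs2
    push Not at hs2
    obtain ⟨l, hl, hdvd⟩ := hs2
    rw [mem_biUnion]
    refine ⟨l, ?_, ?_⟩
    · rw [mem_filter, mem_Icc]
      refine ⟨⟨hl.two_le, ?_⟩, ?_⟩
      · have h1 : l * l ≤ a + Q * s := Nat.le_of_dvd (by omega) hdvd
        have h2 : Q * s ≤ Q * S := Nat.mul_le_mul_left _ hs1.le
        have h3 : l ^ 2 ≤ D ^ 2 := by rw [sq l]; omega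
        exact (Nat.pow_le_pow_iff_left (by norm_num)).1 h3
      · rw [hl.coprime_iff_not_dvd]
        intro hlQ
        have h4 : l ∣ a + Q * s := (Dvd.intro l rfl).trans hdvd
        have h5 : l ∣ a := (Nat.dvd_add_left (hlQ.mul_right s)).1 h4
        have := Nat.dvd_gcd h5 hlQ
        rw [hc] at this
        exact hl.one_lt.ne' (Nat.dvd_one.1 this)
    · rw [mem_filter, mem_range]
      exact ⟨hs1, by rw [sq]; exact hdvd⟩
  have h1 : (#((range S).filter fun s => ¬ Squarefree (a + Q * s)) : ℝ)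
      ≤ ∑ l ∈ Icc 2 D, ((S : ℝ) * ((l : ℝ) ^ 2)⁻¹ + 1) := by
    have h2 : #((range S).filter fun s => ¬ Squarefree (a + Q * s))
        ≤ ∑ l ∈ (Icc 2 D).filter (fun l => Nat.Coprime l Q), (S / l ^ 2 + 1) := by
      refine (card_le_card hbad).trans (card_biUnion_le.trans ?_)
      refine sum_le_sum fun l hl => ?_
      rw [mem_filter, mem_Icc] at hl
      exact card_dvd_le S a Q (l ^ 2) (by have := hl.1.1; positivity) (Nat.Coprime.pow_left 2 hl.2)
    calc (#((range S).filter fun s => ¬ Squarefree (a + Q * s)) : ℝ)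
        ≤ ((∑ l ∈ (Icc 2 D).filter (fun l => Nat.Coprime l Q), (S / l ^ 2 + 1) : ℕ) : ℝ) := by exact_mod_cast h2
      _ ≤ ∑ l ∈ (Icc 2 D).filter (fun l => Nat.Coprime l Q), ((S : ℝ) * ((l : ℝ) ^ 2)⁻¹ + 1) := by
          push_cast
          refine sum_le_sum fun l _ => ?_
          gcongr
          have := @Nat.cast_div_le ℝ _ _ _ S (l ^ 2)
          push_cast at this
          rw [← div_eq_mul_inv]
          exact this
      _ ≤ _ := by
          refine sum_le_sum_of_subset_of_nonneg (filter_subset _ _) fun l _ _ => by positivity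
  have h3 : ∑ l ∈ Icc 2 D, ((S : ℝ) * ((l : ℝ) ^ 2)⁻¹ + 1) ≤ S * (3 / 4) + D := by
    rw [sum_add_distrib, ← mul_sum]
    have h4 : ∑ l ∈ Icc 2 D, ((l : ℝ) ^ 2)⁻¹ ≤ 3 / 4 := by
      rcases Nat.lt_or_ge D 2 with h | h
      · rw [Icc_eq_empty (by omega)]
        norm_num
      · rw [← Finset.Ioc_insert_left h, sum_insert (by simp)]
        have := sum_Ioc_inv_sq_le_sub (α := ℝ) (k := 2) (n := D) (by norm_num) h
        have h5 : (0 : ℝ) ≤ (D : ℝ)⁻¹ := by positivity
        norm_num at this ⊢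
        linarith
    have h6 : ∑ l ∈ Icc 2 D, (1 : ℝ) ≤ D := by
      rw [sum_const, Nat.card_Icc, nsmul_eq_mul, mul_one]
      exact_mod_cast (by omega : D + 1 - 2 ≤ D)
    gcongr
  have h7 : #((range S).filter fun s => Squarefree (a + Q * s))
      + #((range S).filter fun s => ¬ Squarefree (a + Q * s)) = S := by
    rw [card_filter_add_card_filter_not, card_range]
  have h8 : (#((range S).filter fun s => Squarefree (a + Q * s)) : ℝ)
      + #((range S).filter fun s => ¬ Squarefree (a + Q * s)) = S := by exact_mod_cast h7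
  linarith

/-- `m` is squarefree and no other number at distance at most `N` from `m` is squarefree -/
def Isolated (N m : ℕ) : Prop :=
  N ≤ m ∧ Squarefree m ∧ ∀ n : ℕ, n ≠ m → n ≤ m + N → m ≤ n + N → ¬ Squarefree n

open Classical in
/-- a lower bound for the number of isolated squarefree numbers -/
theorem isolated_card (N : ℕ) (hN : 1 ≤ N) : ∃ Q : ℕ, 1 ≤ Q ∧ Q ≤ (64 * N ^ 2) ^ (4 * N) ∧
    ∀ R : ℕ, 256 * Q ^ 2 ≤ R → (R : ℝ) / (8 * Q) ≤ #((Icc 1 R).filter fun m => Isolated N m) := by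
  obtain ⟨p, hinj, hp⟩ := exists_primes N hN
  set ctr : Fin (2 * N + 1) := ⟨N, by omega⟩ with hctr
  set T : Finset (Fin (2 * N + 1)) := univ.erase ctr with hT
  have hcardT : #T = 2 * N := by rw [hT, card_erase_of_mem (mem_univ _), card_univ, Fintype.card_fin]; rfl
  obtain ⟨t0, ht0⟩ : ∃ t0 : ℕ, t0 < ∏ i ∈ T, (p i) ^ 2 ∧ ∀ i ∈ T, t0 ≡ ((p i) ^ 2 - 1) * (i : ℕ) [MOD (p i) ^ 2] := by
    have hs : ∀ i ∈ T, (p i) ^ 2 ≠ 0 := fun i _ => pow_ne_zero _ (hp i).1.ne_zero
    have pp : Set.Pairwise (T : Set (Fin (2 * N + 1))) (Function.onFun Nat.Coprime fun i => (p i) ^ 2) := by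
      intro i _ j _ hij
      exact Nat.Coprime.pow _ _ ((Nat.coprime_primes (hp i).1 (hp j).1).2 (hinj.ne hij))
    exact ⟨_, Nat.chineseRemainderOfFinset_lt_prod (fun i => ((p i) ^ 2 - 1) * (i : ℕ)) (fun i => (p i) ^ 2) hs pp,
      (Nat.chineseRemainderOfFinset (fun i => ((p i) ^ 2 - 1) * (i : ℕ)) (fun i => (p i) ^ 2) T hs pp).2⟩
  set Q : ℕ := ∏ i ∈ T, (p i) ^ 2 with hQ
  have hdiv : ∀ i ∈ T, (p i) ^ 2 ∣ t0 + i := by
    intro i hi
    have h1 := (ht0.2 i hi).add_right (i : ℕ)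
    have h2 : ((p i) ^ 2 - 1) * (i : ℕ) + i = (p i) ^ 2 * i := by
      have : 1 ≤ (p i) ^ 2 := Nat.one_le_pow _ _ (hp i).1.pos
      calc ((p i) ^ 2 - 1) * (i : ℕ) + i = ((p i) ^ 2 - 1 + 1) * i := by ring
        _ = (p i) ^ 2 * i := by rw [Nat.sub_add_cancel this]
    rw [h2] at h1
    exact (Nat.modEq_zero_iff_dvd).1 (h1.trans ((Nat.modEq_zero_iff_dvd).2 (Dvd.intro _ rfl)))
  have hQpos : 1 ≤ Q := Nat.one_le_iff_ne_zero.2 (prod_ne_zero_iff.2 fun i _ => pow_ne_zero _ (hp i).1.ne_zero)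
  have hQle : Q ≤ (64 * N ^ 2) ^ (4 * N) := by
    calc Q ≤ ∏ i ∈ T, (64 * N ^ 2) ^ 2 := prod_le_prod' fun i _ => Nat.pow_le_pow_left (hp i).2.2 2
      _ = (64 * N ^ 2) ^ (4 * N) := by
          rw [prod_const, hcardT, ← pow_mul]
          congr 1
          ring
  have h0T : (⟨0, by omega⟩ : Fin (2 * N + 1)) ∈ T := by
    rw [hT, mem_erase]
    refine ⟨?_, mem_univ _⟩
    rw [hctr, Ne, Fin.mk.injEq]
    omega
  have hNQ : N < Q := by
    have h1 := (hp ⟨0, by omega⟩).2.1
    have h2 : (p ⟨0, by omega⟩) ^ 2 ≤ Q := Nat.le_of_dvd hQpos (dvd_prod_of_mem (fun i => (p i) ^ 2) h0T)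
    have h3 : p ⟨0, by omega⟩ ≤ (p ⟨0, by omega⟩) ^ 2 := Nat.le_self_pow (by norm_num) _
    omega
  refine ⟨Q, hQpos, hQle, fun R hR => ?_⟩
  set a : ℕ := t0 + N with ha
  have ha2 : a < 2 * Q := by have := ht0.1; omega
  have hcop : Nat.Coprime a Q := by
    rw [hQ]
    apply Nat.Coprime.prod_right
    intro i hi
    apply Nat.Coprime.pow_right
    rw [Nat.coprime_comm, (hp i).1.coprime_iff_not_dvd]
    intro hd
    have h1 : p i ∣ t0 + i := (Dvd.intro_left _ (by rw [sq])).trans (hdiv i hi)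
    have hne : (i : ℕ) ≠ N := by
      intro h
      rw [hT, mem_erase] at hi
      exact hi.1 (Fin.ext h)
    have hlt := (hp i).2.1
    have hi2 := i.2
    rcases Nat.lt_or_gt_of_ne hne with h | h
    · have h3 : p i ∣ N - i := by
        have := Nat.dvd_sub hd h1
        rwa [show a - (t0 + (i : ℕ)) = N - i by omega] at this
      exact absurd (Nat.le_of_dvd (by omega) h3) (by omega)
    · have h3 : p i ∣ i - N := by
        have := Nat.dvd_sub h1 hd
        rwa [show (t0 + (i : ℕ)) - a = i - N by omega] at this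
      exact absurd (Nat.le_of_dvd (by omega) h3) (by omega)
  set S : ℕ := (R - a) / Q with hS
  have haR : a ≤ R := by nlinarith
  have hQS : a + Q * S ≤ R := by
    have := Nat.mul_div_le (R - a) Q
    rw [← hS] at this
    omega
  set D : ℕ := Nat.sqrt R + 1 with hD
  have hDR : R ≤ D ^ 2 := by
    rw [hD]
    exact (Nat.lt_succ_sqrt' R).le
  have h4 := card_sqfree_ge S a Q D (hQS.trans hDR) (by omega) hcop
  have h5 : #((range S).filter fun s => Squarefree (a + Q * s)) ≤ #((Icc 1 R).filter fun m => Isolated N m) := by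
    apply card_le_card_of_injOn (fun s => a + Q * s)
    · intro s hs
      rw [mem_coe, mem_filter, mem_range] at hs
      simp only [mem_coe, mem_filter, mem_Icc]
      have h6 : Q * s ≤ Q * S := Nat.mul_le_mul_left _ hs.1.le
      refine ⟨⟨by omega, by omega⟩, by omega, hs.2, ?_⟩
      intro n hn1 hn2 hn3 hsq
      have hiN : n + N - (a + Q * s) < 2 * N + 1 := by omega
      set i : Fin (2 * N + 1) := ⟨n + N - (a + Q * s), hiN⟩ with hi
      have hiT : i ∈ T := by
        rw [hT, mem_erase]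
        refine ⟨?_, mem_univ _⟩
        rw [hctr, hi, Ne, Fin.mk.injEq]
        omega
      have h7 : n = t0 + i + Q * s := by
        rw [hi]
        simp only
        omega
      have h8 : (p i) ^ 2 ∣ n := by
        rw [h7]
        exact (hdiv i hiT).add ((dvd_prod_of_mem (fun i => (p i) ^ 2) hiT).mul_right s)
      rw [sq] at h8
      exact (hp i).1.one_lt.ne' (Nat.isUnit_iff.1 (hsq _ h8))
    · intro s _ s' _ h
      simp only at h
      have : Q * s = Q * s' := by omega
      exact Nat.eq_of_mul_eq_mul_left hQpos this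
  have h6 : ((#((range S).filter fun s => Squarefree (a + Q * s)) : ℕ) : ℝ)
      ≤ #((Icc 1 R).filter fun m => Isolated N m) := by exact_mod_cast h5
  refine le_trans ?_ h6
  refine le_trans ?_ h4
  have hQr : (0 : ℝ) < Q := by exact_mod_cast hQpos
  have hSr : (R : ℝ) / Q - 3 ≤ S := by
    have h7 : R - a < Q * (S + 1) := by
      rw [hS]
      exact Nat.lt_mul_div_succ _ hQpos
    have h8 : R < 2 * Q + Q * (S + 1) := by omega
    have h9 : (R : ℝ) < 2 * Q + Q * (S + 1) := by exact_mod_cast h8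
    have h10 : (R : ℝ) / Q < 3 + S := by
      rw [div_lt_iff₀ hQr]
      linarith
    linarith
  have hDr : (D : ℝ) ≤ Real.sqrt R + 1 := by
    rw [hD]
    push_cast
    have := Real.nat_sqrt_le_real_sqrt (a := R)
    linarith
  have hRr : 256 * (Q : ℝ) ^ 2 ≤ R := by exact_mod_cast hR
  have hs16 : 16 * (Q : ℝ) ≤ Real.sqrt R := by
    apply Real.le_sqrt_of_sq_le
    linarith
  have hQ1 : (1 : ℝ) ≤ Q := by exact_mod_cast hQpos
  have hRs : Real.sqrt R * Real.sqrt R = R := Real.mul_self_sqrt (by positivity)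
  have h11 : 16 * Real.sqrt R ≤ (R : ℝ) / Q := by
    rw [le_div_iff₀ hQr]
    nlinarith [Real.sqrt_nonneg (R : ℝ)]
  have h12 : (R : ℝ) / (8 * Q) = (R : ℝ) / Q / 8 := by
    rw [div_div]
    congr 1
    ring
  rw [h12]
  linarith

end Pool.Agent.T2H67.SAr
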