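import Pool.Agent.T2H67.SAr.Avg
import Pool.Agent.T2H67.SAr.Iso

set_option autoImplicit false

/-!
# Local lower bounds for exponential sums over the squarefree numbers
-/

open Finset MeasureTheory

namespace Pool.Agent.T2H67.SAr

/-- the positive integers up to `R`, as integers -/
def posF (R : ℕ) : Finset ℤ := (Icc 1 R).image fun n : ℕ => (n : ℤ)

/-- the negatives of the positive integers up to `R` -/
def negF (R : ℕ) : Finset ℤ := (Icc 1 R).image fun n : ℕ => -(n : ℤ)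

lemma mem_posF {R : ℕ} {n : ℤ} : n ∈ posF R ↔ ∃ k ∈ Icc 1 R, (k : ℤ) = n := by
  simp only [posF, mem_image]

lemma mem_negF {R : ℕ} {n : ℤ} : n ∈ negF R ↔ ∃ k ∈ Icc 1 R, -(k : ℤ) = n := by
  simp only [negF, mem_image]

lemma disj (R : ℕ) : Disjoint (posF R) (negF R) := by
  rw [Finset.disjoint_left]
  intro n h1 h2
  obtain ⟨k, hk, rfl⟩ := mem_posF.1 h1
  obtain ⟨l, hl, h⟩ := mem_negF.1 h2
  rw [mem_Icc] at hk hl
  omega

/-- the coefficients of the real part -/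
noncomputable def cf (z : ℂ) (a : ℕ → ℂ) (n : ℤ) : ℂ :=
  if 0 < n then z * a n.toNat / 2 else (starRingEnd ℂ) (z * a (-n).toNat) / 2

lemma cf_pos (z : ℂ) (a : ℕ → ℂ) {k : ℕ} (hk : 1 ≤ k) : cf z a k = z * a k / 2 := by
  unfold cf
  rw [if_pos (by omega), Int.toNat_natCast]

lemma cf_neg (z : ℂ) (a : ℕ → ℂ) {k : ℕ} (hk : 1 ≤ k) : cf z a (-(k : ℤ)) = (starRingEnd ℂ) (z * a k) / 2 := by
  unfold cf
  rw [if_neg (by omega), neg_neg, Int.toNat_natCast]

/-- the exponential sum `∑_{n=1}^R a(n) e(n x)` -/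
noncomputable def expSum (a : ℕ → ℂ) (R : ℕ) (x : ℝ) : ℂ :=
  ∑ n ∈ Finset.Icc 1 R, a n * Complex.exp (2 * Real.pi * Complex.I * n * x)

lemma expSum_eq (a : ℕ → ℂ) (R : ℕ) (x : ℝ) : expSum a R x = ∑ n ∈ Icc 1 R, a n * E (n * x) := by
  unfold expSum E
  refine sum_congr rfl fun n _ => ?_
  congr 2
  push_cast
  ring

lemma trig_eq (z : ℂ) (a : ℕ → ℂ) (R : ℕ) (x : ℝ) :
    ∑ n ∈ posF R ∪ negF R, cf z a n * E (n * x) = (((z * expSum a R x).re : ℝ) : ℂ) := by
  rw [sum_union (disj R), posF, negF, sum_image (fun a _ b _ h => by simpa using h),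
    sum_image (fun a _ b _ h => by simpa using h), ← sum_add_distrib]
  rw [expSum_eq, mul_sum, Complex.re_sum, Complex.ofReal_sum]
  refine sum_congr rfl fun n hn => ?_
  rw [mem_Icc] at hn
  rw [cf_pos z a hn.1, cf_neg z a hn.1]
  have h1 : E (((-(n : ℤ) : ℤ) : ℝ) * x) = (starRingEnd ℂ) (E (n * x)) := by
    rw [← E_neg]
    congr 1
    push_cast
    ring
  rw [h1, Complex.re_eq_add_conj, map_mul, map_mul]
  simp only [Int.cast_natCast, map_mul]
  ring

/-- the parameters work -/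
lemma param_ineq {B δ : ℝ} (hB : 1 ≤ B) (hδ : 0 < δ) {ρ : ℕ}
    (hρ : 5 + 2 * Real.log (B / δ) ≤ ρ) : B * (Real.pi⁻¹ ^ ρ * (ρ / δ)) ≤ 1 / 4 := by
  have hBδ : 0 < B / δ := by positivity
  have h1 : Real.pi⁻¹ ^ ρ ≤ Real.exp (-(ρ : ℝ)) := by
    have h2 : Real.pi⁻¹ ≤ Real.exp (-1) := by
      rw [Real.exp_neg]
      apply inv_anti₀ (Real.exp_pos 1)
      linarith [Real.exp_one_lt_d9, Real.pi_gt_three]
    calc Real.pi⁻¹ ^ ρ ≤ Real.exp (-1) ^ ρ := by gcongr
      _ = Real.exp (-(ρ : ℝ)) := by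
          rw [← Real.exp_nat_mul]
          congr 1
          ring
  have h3 : (ρ : ℝ) ≤ 2 * Real.exp (ρ / 2) := by
    have := Real.add_one_le_exp ((ρ : ℝ) / 2)
    linarith
  have h4 : Real.exp ((ρ : ℝ) / 2) ≥ 8 * (B / δ) := by
    have h5 : Real.log (8 * (B / δ)) ≤ ρ / 2 := by
      rw [Real.log_mul (by norm_num) hBδ.ne']
      have h6 : Real.log 8 = 3 * Real.log 2 := by
        rw [show (8 : ℝ) = 2 ^ 3 by norm_num, Real.log_pow]
        norm_num
      rw [h6]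
      linarith [Real.log_two_lt_d9]
    calc 8 * (B / δ) = Real.exp (Real.log (8 * (B / δ))) := (Real.exp_log (by positivity)).symm
      _ ≤ Real.exp (ρ / 2) := Real.exp_le_exp.2 h5
  have h7 : 0 < Real.exp ((ρ : ℝ) / 2) := Real.exp_pos _
  calc B * (Real.pi⁻¹ ^ ρ * (ρ / δ)) ≤ B * (Real.exp (-(ρ : ℝ)) * (2 * Real.exp (ρ / 2) / δ)) := by gcongr
    _ = 2 * (B / δ) * (Real.exp (-(ρ : ℝ)) * Real.exp (ρ / 2)) := by ring
    _ = 2 * (B / δ) * Real.exp (-((ρ : ℝ) / 2)) := by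
        rw [← Real.exp_add]
        congr 2
        ring
    _ = 2 * (B / δ) / Real.exp ((ρ : ℝ) / 2) := by rw [Real.exp_neg]; ring
    _ ≤ 1 / 4 := by
        rw [div_le_iff₀ h7]
        linarith

/-- the numerical end of the proof -/
lemma numeric_end {δ L ρ : ℝ} {Q : ℕ} (hδ : 0 < δ) (hδ1 : δ ≤ 1) (hL1 : 1 ≤ L) (hlogδ : Real.log (1 / δ) ≤ L - 1)
    (hQr : (0 : ℝ) < Q) (hlogQ : Real.log Q ≤ 480 * L ^ 2 / δ) (hρpos : 0 < ρ) (hρ2 : ρ ≤ 6 * L)
    (hLδ : 1 ≤ L ^ 2 / δ) (R : ℕ) :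
    (R : ℝ) * Real.exp (-(500 * L ^ 2 / δ)) ≤ (δ / ρ) ^ 2 * ((R : ℝ) / (8 * Q) * (1 / 16)) := by
  have hhlow : δ / (6 * L) ≤ δ / ρ := by gcongr
  have hδL : L ≤ L ^ 2 := by nlinarith
  have hQexp : (Q : ℝ) ≤ Real.exp (480 * L ^ 2 / δ) := by
    rw [← Real.exp_log hQr]
    exact Real.exp_le_exp.2 hlogQ
  have hsmall : 4608 * L ^ 2 / δ ^ 2 ≤ Real.exp (20 * L ^ 2 / δ) := by
    have h1 : Real.log (4608 * L ^ 2 / δ ^ 2) ≤ 20 * L ^ 2 / δ := by
      rw [show 4608 * L ^ 2 / δ ^ 2 = 4608 * L ^ 2 * (1 / δ) ^ 2 by ring,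
        Real.log_mul (by positivity) (by positivity), Real.log_mul (by norm_num) (by positivity),
        Real.log_pow, Real.log_pow]
      have h6 : Real.log L ≤ L - 1 := Real.log_le_sub_one_of_pos (by positivity)
      have h7 : Real.log 4608 ≤ 10 := by
        have : Real.log 4608 ≤ Real.log (2 ^ 13) := Real.log_le_log (by norm_num) (by norm_num)
        rw [Real.log_pow] at this
        push_cast at this
        linarith [Real.log_two_lt_d9]
      have h8 : L ≤ L ^ 2 / δ := by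
        rw [le_div_iff₀ hδ]
        nlinarith
      have h9 : 20 * L ^ 2 / δ = 10 * (L ^ 2 / δ) + 10 * (L ^ 2 / δ) := by ring
      push_cast
      linarith
    calc 4608 * L ^ 2 / δ ^ 2 = Real.exp (Real.log (4608 * L ^ 2 / δ ^ 2)) := (Real.exp_log (by positivity)).symm
      _ ≤ _ := Real.exp_le_exp.2 h1
  have hexp : Real.exp (-(500 * L ^ 2 / δ))
      ≤ (Real.exp (480 * L ^ 2 / δ))⁻¹ * (4608 * L ^ 2 / δ ^ 2)⁻¹ := by
    have h1 : Real.exp (-(500 * L ^ 2 / δ)) = (Real.exp (480 * L ^ 2 / δ))⁻¹ * (Real.exp (20 * L ^ 2 / δ))⁻¹ := by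
      rw [← Real.exp_neg, ← Real.exp_neg, ← Real.exp_add]
      congr 1
      ring
    rw [h1]
    gcongr
  calc (R : ℝ) * Real.exp (-(500 * L ^ 2 / δ))
      ≤ R * ((Real.exp (480 * L ^ 2 / δ))⁻¹ * (4608 * L ^ 2 / δ ^ 2)⁻¹) := by gcongr
    _ ≤ R * ((Q : ℝ)⁻¹ * (4608 * L ^ 2 / δ ^ 2)⁻¹) := by gcongr
    _ = (δ / (6 * L)) ^ 2 * ((R : ℝ) / (8 * Q) * (1 / 16)) := by
        field_simp
        ring
    _ ≤ (δ / ρ) ^ 2 * ((R : ℝ) / (8 * Q) * (1 / 16)) := by gcongr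

/-- The explicit lower bound. -/
theorem short_arcs {B δ : ℝ} (hB : 1 ≤ B) (hδ : 0 < δ) (hδ1 : δ ≤ 1) (R : ℕ)
    (hR : 1000 * (1 + Real.log (B / δ)) ^ 2 / δ ≤ Real.log R) (α : ℝ) (z : ℂ) (hz : ‖z‖ = 1) (a : ℕ → ℂ)
    (ha0 : ∀ n, 1 ≤ n → n ≤ R → ¬ Squarefree n → a n = 0)
    (ha1 : ∀ n, 1 ≤ n → n ≤ R → Squarefree n → 1 ≤ ‖a n‖ ∧ ‖a n‖ ≤ B) :
    R * Real.exp (-(500 * (1 + Real.log (B / δ)) ^ 2 / δ)) ≤
      ∫ x in α..(α + δ), (z * expSum a R x).re ^ 2 := by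
  classical
  set L : ℝ := 1 + Real.log (B / δ) with hL
  have hBδ : 1 ≤ B / δ := by
    rw [le_div_iff₀ hδ]
    linarith
  have hL1 : 1 ≤ L := by
    rw [hL]
    linarith [Real.log_nonneg hBδ]
  have hlogδ : Real.log (1 / δ) ≤ L - 1 := by
    rw [hL, add_sub_cancel_left]
    apply Real.log_le_log (by positivity)
    gcongr
  set ρ : ℕ := ⌈5 * L⌉₊ with hρ
  have hρ1 : 5 * L ≤ ρ := Nat.le_ceil _
  have hρ2 : (ρ : ℝ) ≤ 6 * L := by
    have := Nat.ceil_lt_add_one (show 0 ≤ 5 * L by positivity)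
    rw [← hρ] at this
    linarith
  have hρ5 : (5 : ℝ) ≤ ρ := by linarith
  have hρ5' : 5 ≤ ρ := by exact_mod_cast hρ5
  have hρpos : (0 : ℝ) < ρ := by linarith
  set h : ℝ := δ / ρ with hh
  have hhpos : 0 < h := by positivity
  have hh1 : h ≤ 1 := by
    rw [hh, div_le_one hρpos]
    linarith
  set N : ℕ := ⌈ρ / δ⌉₊ with hN
  have hN1 : ρ / δ ≤ N := Nat.le_ceil _
  have hρδ : 1 ≤ ρ / δ := by
    rw [le_div_iff₀ hδ]
    linarith
  have hN2 : (N : ℝ) ≤ 12 * L / δ := by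
    have h1 := Nat.ceil_lt_add_one (show 0 ≤ ρ / δ by positivity)
    rw [← hN] at h1
    calc (N : ℝ) ≤ 2 * (ρ / δ) := by linarith
      _ ≤ 2 * (6 * L / δ) := by gcongr
      _ = 12 * L / δ := by ring
  have hNh : 1 ≤ N * h := by
    rw [hh]
    calc (1 : ℝ) = ρ / δ * (δ / ρ) := by field_simp
      _ ≤ N * (δ / ρ) := by gcongr
  have hNpos' : (1 : ℝ) ≤ N := hρδ.trans hN1
  have hNpos : 1 ≤ N := by exact_mod_cast hNpos'
  obtain ⟨Q, hQ1, hQ2, hQ3⟩ := isolated_card N hNpos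
  have hQr : (0 : ℝ) < Q := by exact_mod_cast hQ1
  -- size of Q
  have hlogQ : Real.log Q ≤ 480 * L ^ 2 / δ := by
    have h1 : Real.log Q ≤ (4 * N) * Real.log (64 * N ^ 2) := by
      have h2 : (Q : ℝ) ≤ (64 * (N : ℝ) ^ 2) ^ (4 * N) := by exact_mod_cast hQ2
      calc Real.log Q ≤ Real.log ((64 * (N : ℝ) ^ 2) ^ (4 * N)) := Real.log_le_log hQr h2
        _ = (4 * N) * Real.log (64 * N ^ 2) := by
            rw [Real.log_pow]
            push_cast
            ring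
    have h3 : Real.log (64 * (N : ℝ) ^ 2) ≤ 10 * L := by
      have h4 : 64 * (N : ℝ) ^ 2 ≤ (96 * L * (1 / δ)) ^ 2 := by
        calc 64 * (N : ℝ) ^ 2 ≤ 64 * (12 * L / δ) ^ 2 := by gcongr
          _ = (96 * L * (1 / δ)) ^ 2 := by ring
      have h5 : Real.log (96 * L * (1 / δ)) ≤ 5 * L := by
        rw [Real.log_mul (by positivity) (by positivity), Real.log_mul (by norm_num) (by positivity)]
        have h6 : Real.log L ≤ L - 1 := Real.log_le_sub_one_of_pos (by positivity)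
        have h7 : Real.log 96 ≤ 5 := by
          have : Real.log 96 ≤ Real.log (2 ^ 7) := Real.log_le_log (by norm_num) (by norm_num)
          rw [Real.log_pow] at this
          push_cast at this
          linarith [Real.log_two_lt_d9]
        linarith
      calc Real.log (64 * (N : ℝ) ^ 2) ≤ Real.log ((96 * L * (1 / δ)) ^ 2) :=
            Real.log_le_log (by positivity) h4
        _ = 2 * Real.log (96 * L * (1 / δ)) := by rw [Real.log_pow]; norm_num
        _ ≤ 10 * L := by linarith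
    calc Real.log Q ≤ (4 * N) * Real.log (64 * N ^ 2) := h1
      _ ≤ (4 * (12 * L / δ)) * (10 * L) := by
          have h8 : 0 ≤ Real.log (64 * (N : ℝ) ^ 2) := Real.log_nonneg (by nlinarith)
          gcongr
      _ = 480 * L ^ 2 / δ := by ring
  have hLδ : 1 ≤ L ^ 2 / δ := by
    rw [le_div_iff₀ hδ]
    nlinarith
  have hRpos : (0 : ℝ) < R := by
    by_contra hcon
    have : (R : ℝ) = 0 := le_antisymm (not_lt.1 hcon) (by positivity)
    rw [this, Real.log_zero] at hR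
    have : (1000 : ℝ) ≤ 1000 * L ^ 2 / δ := by
      rw [mul_div_assoc]
      linarith
    linarith
  have hRQ : 256 * Q ^ 2 ≤ R := by
    have h1 : Real.log (256 * (Q : ℝ) ^ 2) ≤ Real.log R := by
      rw [Real.log_mul (by norm_num) (by positivity), Real.log_pow]
      have h2 : Real.log 256 ≤ 6 := by
        rw [show (256 : ℝ) = 2 ^ 8 by norm_num, Real.log_pow]
        push_cast
        linarith [Real.log_two_lt_d9]
      have h3 : 1000 * L ^ 2 / δ = 2 * (480 * L ^ 2 / δ) + 40 * (L ^ 2 / δ) := by ring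
      push_cast
      linarith
    have h4 : 256 * (Q : ℝ) ^ 2 ≤ R := (Real.log_le_log_iff (by positivity) hRpos).1 h1
    exact_mod_cast h4
  have hcard := hQ3 R hRQ
  set M : Finset ℕ := (Icc 1 R).filter fun m => Isolated N m with hM
  -- the trigonometric polynomial
  set F : Finset ℤ := posF R ∪ negF R with hF
  have hcB : ∀ n ∈ F, ‖cf z a n‖ ≤ B / 2 := by
    intro n hn
    have haB : ∀ k, 1 ≤ k → k ≤ R → ‖a k‖ ≤ B := by
      intro k h1 h2
      by_cases hk : Squarefree k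
      · exact (ha1 k h1 h2 hk).2
      · rw [ha0 k h1 h2 hk, norm_zero]
        linarith
    rw [hF, mem_union] at hn
    rcases hn with hn | hn
    · obtain ⟨k, hk, rfl⟩ := mem_posF.1 hn
      rw [mem_Icc] at hk
      rw [cf_pos z a hk.1, norm_div, norm_mul, hz, one_mul, Complex.norm_ofNat]
      have := haB k hk.1 hk.2
      linarith
    · obtain ⟨k, hk, rfl⟩ := mem_negF.1 hn
      rw [mem_Icc] at hk
      rw [cf_neg z a hk.1, norm_div, Complex.norm_conj, norm_mul, hz, one_mul, Complex.norm_ofNat]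
      have := haB k hk.1 hk.2
      linarith
  set S : ℝ → ℂ := fun x => ∑ n ∈ F, cf z a n * E (n * x) with hS
  have hSc : Continuous S := by rw [hS]; fun_prop
  obtain ⟨r, hr⟩ : ∃ r, ρ = r + 2 := ⟨ρ - 2, by omega⟩
  have hlow : ∀ m ∈ M, 1 / 4 ≤ ‖G S h (m : ℤ) ρ α‖ := by
    intro m hm
    rw [hM, mem_filter, mem_Icc] at hm
    obtain ⟨⟨hm1, hmR⟩, hNm, hsq, hiso⟩ := hm
    have hmF : (m : ℤ) ∈ F := by
      rw [hF, mem_union]
      left
      exact mem_posF.2 ⟨m, mem_Icc.2 ⟨hm1, hmR⟩, rfl⟩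
    have h1 := iso_ge F (cf z a) (B := B / 2) hhpos (by linarith) (N := N) (r := r) hNh m hmF hcB (by
      intro n hn hne hd
      rw [hF, mem_union] at hn
      rcases hn with hn | hn
      · obtain ⟨k, hk, rfl⟩ := mem_posF.1 hn
        rw [mem_Icc] at hk
        rw [cf_pos z a hk.1, ha0 k hk.1 hk.2, mul_zero, zero_div]
        rw [abs_le] at hd
        exact hiso k (by exact_mod_cast hne) (by omega) (by omega)
      · obtain ⟨k, hk, rfl⟩ := mem_negF.1 hn
        rw [mem_Icc] at hk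
        rw [abs_le] at hd
        omega) α
    rw [← hr] at h1
    have h2 : 1 / 2 ≤ ‖cf z a m‖ := by
      rw [cf_pos z a hm1, norm_div, norm_mul, hz, one_mul, Complex.norm_ofNat]
      have := (ha1 m hm1 hmR hsq).1
      linarith
    have h3 : B / 2 * (Real.pi⁻¹ ^ ρ * (2 / h)) ≤ 1 / 4 := by
      have h4 := param_ineq (ρ := ρ) hB hδ (by
        have := Real.log_nonneg hBδ
        rw [hL] at hρ1
        linarith)
      have h5 : 2 / h = 2 * (ρ / δ) := by
        rw [hh]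
        field_simp
      rw [h5]
      calc B / 2 * (Real.pi⁻¹ ^ ρ * (2 * (ρ / δ))) = B * (Real.pi⁻¹ ^ ρ * (ρ / δ)) := by ring
        _ ≤ 1 / 4 := h4
    linarith
  have hmain := main_ineq hSc hhpos hh1 (M.image fun n : ℕ => (n : ℤ)) (r + 1) α
  rw [sum_image (fun a _ b _ h => by simpa using h)] at hmain
  have hlow2 : (#M : ℝ) * (1 / 16) ≤ ∑ m ∈ M, ‖G S h (m : ℤ) (r + 1 + 1) α‖ ^ 2 := by
    rw [← nsmul_eq_mul, ← sum_const]
    refine sum_le_sum fun m hm => ?_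
    have h1 := hlow m hm
    rw [hr] at h1
    calc (1 : ℝ) / 16 = (1 / 4) ^ 2 := by norm_num
      _ ≤ ‖G S h (m : ℤ) (r + 2) α‖ ^ 2 := by gcongr
  have hend : α + (((r + 1 : ℕ) : ℝ) + 1) * h = α + δ := by
    have : (((r + 1 : ℕ) : ℝ) + 1) = ρ := by rw [hr]; push_cast; ring
    rw [this, hh]
    field_simp
  rw [hend] at hmain
  have hint : ∫ t in α..(α + δ), ‖S t‖ ^ 2 = ∫ x in α..(α + δ), (z * expSum a R x).re ^ 2 := by
    congr 1
    funext x
    rw [hS]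
    simp only
    rw [trig_eq, Complex.norm_real, Real.norm_eq_abs, sq_abs]
  rw [hint] at hmain
  set I := ∫ x in α..(α + δ), (z * expSum a R x).re ^ 2 with hI
  have hfin : h ^ 2 * ((R : ℝ) / (8 * Q) * (1 / 16)) ≤ I := by
    have h1 : (R : ℝ) / (8 * Q) * (1 / 16) ≤ (h⁻¹) ^ 2 * I := by
      calc (R : ℝ) / (8 * Q) * (1 / 16) ≤ #M * (1 / 16) := by gcongr
        _ ≤ _ := hlow2
        _ ≤ _ := hmain
    calc h ^ 2 * ((R : ℝ) / (8 * Q) * (1 / 16)) ≤ h ^ 2 * ((h⁻¹) ^ 2 * I) := by gcongr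
      _ = I := by
          rw [← mul_assoc, ← mul_pow, mul_inv_cancel₀ hhpos.ne', one_pow, one_mul]
  refine le_trans ?_ hfin
  exact numeric_end hδ hδ1 hL1 hlogδ hQr hlogQ hρpos hρ2 hLδ R

/-- the version with a small exponent -/
theorem short_arcs_eps {ε : ℝ} (hε : 0 < ε) (hε1 : ε ≤ 1) : ∃ R₀ : ℕ, ∀ R : ℕ, R₀ ≤ R →
    4000 * Real.log (Real.log R) ^ 2 / (ε * Real.log R) ≤ 1 ∧
    ∀ (α : ℝ) (z : ℂ), ‖z‖ = 1 → ∀ a : ℕ → ℂ,
    (∀ n, 1 ≤ n → n ≤ R → ¬ Squarefree n → a n = 0) →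
    (∀ n, 1 ≤ n → n ≤ R → Squarefree n → ‖a n‖ = 1) →
    (R : ℝ) ^ (1 - ε / 2) ≤
      (∫ x in α..(α + 4000 * Real.log (Real.log R) ^ 2 / (ε * Real.log R)), (z * expSum a R x).re ^ 2) ∧
    ∃ x ∈ Set.Icc α (α + 4000 * Real.log (Real.log R) ^ 2 / (ε * Real.log R)),
      (R : ℝ) ^ (1 / 2 - ε / 2) ≤ |(z * expSum a R x).re| := by
  have h1 : ∀ᶠ y : ℝ in Filter.atTop, 4000 * Real.log y ^ 2 ≤ ε * y := by
    have h2 := (Real.isLittleO_pow_log_id_atTop (n := 2)).bound (show 0 < ε / 4000 by positivity)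
    filter_upwards [h2, Filter.eventually_ge_atTop 1] with y hy hy1
    rw [Real.norm_of_nonneg (by positivity), id, Real.norm_of_nonneg (by positivity)] at hy
    linarith
  have h2 : ∀ᶠ y : ℝ in Filter.atTop, 1 ≤ Real.log y := Real.tendsto_log_atTop.eventually_ge_atTop 1
  have hlog : Filter.Tendsto (fun R : ℕ => Real.log (R : ℝ)) Filter.atTop Filter.atTop :=
    Real.tendsto_log_atTop.comp tendsto_natCast_atTop_atTop
  have h3 := (hlog.eventually h1).and ((hlog.eventually h2).and (Filter.eventually_ge_atTop 2))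
  obtain ⟨R₀, hR₀⟩ := Filter.eventually_atTop.1 h3
  refine ⟨R₀, fun R hR => ?_⟩
  obtain ⟨g1, g2, g3⟩ := hR₀ R hR
  have hR2 : (2 : ℝ) ≤ R := by exact_mod_cast g3
  have hRpos : (0 : ℝ) < R := by linarith
  have hlogR : 0 < Real.log R := Real.log_pos (by linarith)
  set l : ℝ := Real.log (Real.log R) with hl
  set δ : ℝ := 4000 * l ^ 2 / (ε * Real.log R) with hδ
  have hεlog : 0 < ε * Real.log R := by positivity
  have hδpos : 0 < δ := by positivity
  have hδ1 : δ ≤ 1 := by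
    rw [hδ, div_le_one hεlog]
    exact g1
  refine ⟨hδ1, fun α z hz a ha0 ha1 => ?_⟩
  set L : ℝ := 1 + Real.log (1 / δ) with hL
  have hL1 : 1 ≤ L := by
    rw [hL]
    have : 0 ≤ Real.log (1 / δ) := Real.log_nonneg (by rw [le_div_iff₀ hδpos]; linarith)
    linarith
  have hL2 : L ≤ 2 * l := by
    have : Real.log (1 / δ) ≤ l := by
      rw [hl]
      apply Real.log_le_log (by positivity)
      rw [hδ, one_div_div, div_le_iff₀ (by positivity)]
      have h4 : 1 ≤ l ^ 2 := by nlinarith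
      nlinarith
    rw [hL]
    linarith
  have hLδ : 1000 * L ^ 2 / δ ≤ ε * Real.log R := by
    rw [div_le_iff₀ hδpos]
    have h5 : L ^ 2 ≤ 4 * l ^ 2 := by nlinarith
    have h6 : ε * Real.log R * δ = 4000 * l ^ 2 := by
      rw [hδ]
      field_simp
    rw [h6]
    linarith
  have hmain := short_arcs (B := 1) le_rfl hδpos hδ1 R (hLδ.trans (by nlinarith)) α z hz a ha0
    (fun n h1 h2 h3 => by rw [ha1 n h1 h2 h3]; exact ⟨le_rfl, le_rfl⟩)
  rw [← hL] at hmain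
  have hpow : (R : ℝ) ^ (1 - ε / 2) ≤ R * Real.exp (-(500 * L ^ 2 / δ)) := by
    rw [Real.rpow_sub hRpos, Real.rpow_one, div_eq_mul_inv, ← Real.rpow_neg hRpos.le,
      Real.rpow_def_of_pos hRpos]
    gcongr
    have : 500 * L ^ 2 / δ = (1000 * L ^ 2 / δ) / 2 := by ring
    rw [this]
    linarith
  refine ⟨hpow.trans hmain, ?_⟩
  by_contra hcon
  push Not at hcon
  have h7 : ∫ x in α..(α + δ), (z * expSum a R x).re ^ 2 ≤ ∫ x in α..(α + δ), (R : ℝ) ^ (1 - ε) := by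
    apply intervalIntegral.integral_mono_on (by linarith)
    · apply Continuous.intervalIntegrable
      have : Continuous fun x => expSum a R x := by unfold expSum; fun_prop
      fun_prop
    · apply Continuous.intervalIntegrable
      fun_prop
    · intro x hx
      have h8 := (hcon x hx).le
      calc (z * expSum a R x).re ^ 2 = |(z * expSum a R x).re| ^ 2 := (sq_abs _).symm
        _ ≤ ((R : ℝ) ^ (1 / 2 - ε / 2)) ^ 2 := by gcongr
        _ = (R : ℝ) ^ (1 - ε) := by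
            rw [← Real.rpow_natCast, ← Real.rpow_mul hRpos.le]
            congr 1
            push_cast
            ring
  rw [intervalIntegral.integral_const, smul_eq_mul, add_sub_cancel_left] at h7
  have h9 : (R : ℝ) ^ (1 - ε) < (R : ℝ) ^ (1 - ε / 2) := Real.rpow_lt_rpow_of_exponent_lt (by linarith) (by linarith)
  have h10 : 0 < (R : ℝ) ^ (1 - ε) := by positivity
  have h11 := hpow.trans hmain
  nlinarith

end Pool.Agent.T2H67.SAr
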